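import Pool.Agent.Y826.BX.Switch

/-!
# MP_dfd561_co: empty boxes of volume `O(n^2)` in high-dimensional permutations of EVERY order

For every dimension `d` and EVERY order `n ≥ 1` there is a `d`-dimensional permutation of order `n`
without an empty box of volume larger than `32 (d + 2) rad(n)^(2 d) n^2`, where `rad(n)` is the
product of the primes dividing `n`.  So `C n^2` holds, with one constant, for all orders composed of
the primes of a fixed finite set (not only for the powers of two).

Idea: in the zero-sum table of an abelian group `G` of order `n` and exponent `rad(n)`, the coset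
of the cube of the cyclic group generated by `s = ∑ α_i` through `α` can be switched from sum `0` to
sum `s`; random disjoint switches (counting lemma of the starting files) hit every large box.
-/

set_option autoImplicit false

namespace Pool.Agent.Results.MP_dfd561_co.AllOrders

open Pool.Agent.Y826.BX

/-- `A : [n]^(d+1) → {0,1}` (`true` stands for `1`) has exactly one `1` on every line. -/
def IsPermutation (d n : ℕ) (A : (Fin (d + 1) → Fin n) → Bool) : Prop :=
  ∀ (i : Fin (d + 1)) (α : Fin (d + 1) → Fin n), ∃! x : Fin n, A (Function.update α i x) = true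

/-- the box `T_1 × ... × T_{d+1}` is empty in `A`. -/
def IsEmptyBox (d n : ℕ) (A : (Fin (d + 1) → Fin n) → Bool) (T : Fin (d + 1) → Finset (Fin n)) :
    Prop :=
  ∀ α : Fin (d + 1) → Fin n, (∀ i, α i ∈ T i) → A α = false

/-- the volume of the box `T_1 × ... × T_{d+1}`. -/
def volume (d n : ℕ) (T : Fin (d + 1) → Finset (Fin n)) : ℕ := ∏ i, (T i).card

theorem transport (d n : ℕ) (G : Type) [Fintype G] (hG : Fintype.card G = n) (D : ℕ)
    (B : (Fin (d + 1) → G) → Bool)
    (hB : ∀ i γ, ∃! x, B (Function.update γ i x) = true)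
    (hT : ∀ T : Fin (d + 1) → Finset G, (∀ α, (∀ i, α i ∈ T i) → B α = false) →
        ∏ i, (T i).card ≤ D) :
    ∃ A : (Fin (d + 1) → Fin n) → Bool, IsPermutation d n A ∧
      ∀ T : Fin (d + 1) → Finset (Fin n), IsEmptyBox d n A T → volume d n T ≤ D := by
  classical
  let σ : Fin n ≃ G := (Fintype.equivFinOfCardEq hG).symm
  refine ⟨fun α => B (fun i => σ (α i)), ?_, ?_⟩
  · intro i α
    obtain ⟨x, hx, hu⟩ := hB i (fun j => σ (α j))
    have hupd : ∀ y : Fin n, (fun j => σ (Function.update α i y j)) =
        Function.update (fun j => σ (α j)) i (σ y) := by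
      intro y
      funext j
      by_cases hj : j = i
      · subst hj; simp
      · simp [Function.update_of_ne hj]
    refine ⟨σ.symm x, ?_, ?_⟩
    · show B (fun j => σ (Function.update α i (σ.symm x) j)) = true
      rw [hupd, Equiv.apply_symm_apply]
      exact hx
    · intro y hy
      replace hy : B (fun j => σ (Function.update α i y j)) = true := hy
      rw [hupd] at hy
      rw [← hu _ hy, Equiv.symm_apply_apply]
  · intro T hE
    have h1 := hT (fun i => (T i).map σ.toEmbedding) (by
      intro α hα
      have h2 := hE (fun i => σ.symm (α i)) (by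
        intro i
        obtain ⟨y, hy, hyα⟩ := Finset.mem_map.mp (hα i)
        rw [← hyα]
        simpa using hy)
      simpa using h2)
    simpa [volume] using h1

/-- an abelian group of order `n` whose exponent divides the product of the primes dividing `n` -/
abbrev Grp (n : ℕ) : Type := ∀ p : n.primeFactors, (Fin (n.factorization (p : ℕ)) → ZMod (p : ℕ))

instance (n : ℕ) (p : n.primeFactors) : NeZero (p : ℕ) :=
  ⟨(Nat.prime_of_mem_primeFactors p.2).ne_zero⟩

theorem card_grp (n : ℕ) (hn : n ≠ 0) : Fintype.card (Grp n) = n := by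
  rw [Fintype.card_pi]
  have h1 : ∀ p : n.primeFactors,
      Fintype.card (Fin (n.factorization (p : ℕ)) → ZMod (p : ℕ)) =
        (p : ℕ) ^ n.factorization (p : ℕ) := by
    intro p
    rw [Fintype.card_pi_const, ZMod.card]
  rw [Finset.prod_congr rfl (fun p _ => h1 p)]
  rw [Finset.prod_coe_sort n.primeFactors (fun p => p ^ n.factorization p)]
  exact Nat.prod_factorization_pow_eq_self hn

theorem exp_grp (n : ℕ) (x : Grp n) : (∏ p ∈ n.primeFactors, p) • x = 0 := by
  funext p i
  obtain ⟨m, hm⟩ := Finset.dvd_prod_of_mem (fun p : ℕ => p) p.2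
  show (∏ p ∈ n.primeFactors, p) • (x p i) = 0
  rw [nsmul_eq_mul]
  have h1 : ((∏ p ∈ n.primeFactors, p : ℕ) : ZMod (p : ℕ)) = 0 := by
    rw [hm]
    push_cast
    rw [ZMod.natCast_self, zero_mul]
  rw [h1, zero_mul]

/-- For every `d` and every `n ≥ 1` there is a `d`-dimensional permutation of order `n` all of whose
empty boxes have volume at most `32 (d + 2) rad(n)^(2 d) n^2`. -/
theorem result : ∀ d n : ℕ, 1 ≤ n →
    ∃ A : (Fin (d + 1) → Fin n) → Bool, IsPermutation d n A ∧
      ∀ T : Fin (d + 1) → Finset (Fin n), IsEmptyBox d n A T →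
        volume d n T ≤ 32 * (d + 2) * (∏ p ∈ n.primeFactors, p) ^ (2 * d) * n ^ 2 := by
  intro d n hn
  have hc := card_grp n (by omega)
  obtain ⟨B, hB, hT⟩ := exists_table (d := d) (G := Grp n) (∏ p ∈ n.primeFactors, p)
    (Finset.prod_pos fun p hp => (Nat.prime_of_mem_primeFactors hp).pos) (exp_grp n)
  obtain ⟨A, hA, hA2⟩ := transport d n (Grp n) hc _ B hB hT
  refine ⟨A, hA, fun T hE => ?_⟩
  have h := hA2 T hE
  rw [hc] at h
  exact h

end Pool.Agent.Results.MP_dfd561_co.AllOrders
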